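import Pool.Agent.Helper63.Wijsman.Game

/-!
A metric space in which the second player wins the strong Choquet game is completely
metrizable.
-/

namespace Pool.Agent.Helper63.Wijsman

open Set Topology TopologicalSpace

/-- A space embedded in a complete metric space as a countable intersection of open sets is
completely metrizable. -/
theorem completelyMetrizable_of_embedding {X Y : Type} [TopologicalSpace X] [MetricSpace Y]
    [CompleteSpace Y] (e : X → Y) (he : IsEmbedding e) (O : ℕ → Set Y) (hO : ∀ n, IsOpen (O n))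
    (hr : range e = ⋂ n, O n) : IsCompletelyMetrizableSpace X := by
  have hmem : ∀ x n, e x ∈ O n := by
    intro x n
    have : e x ∈ ⋂ n, O n := hr ▸ mem_range_self x
    exact mem_iInter.mp this n
  have hinst : ∀ n, IsCompletelyMetrizableSpace (O n) := fun n =>
    inferInstanceAs (IsCompletelyMetrizableSpace (Opens.CompleteCopy (⟨O n, hO n⟩ : Opens Y)))
  let f : X → ∀ n, O n := fun x n => ⟨e x, hmem x n⟩
  have hfc : Continuous f := by
    refine continuous_pi fun n => ?_
    exact he.continuous.subtype_mk _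
  have hfe : IsEmbedding f := by
    refine IsEmbedding.of_comp hfc
      (continuous_subtype_val.comp (continuous_apply 0) : Continuous fun z : (∀ n, O n) => (z 0).1) ?_
    exact he
  have hfr : IsClosed (range f) := by
    have : range f = {z : ∀ n, O n | ∀ n, (z n).1 = (z 0).1} := by
      ext z
      constructor
      · rintro ⟨x, rfl⟩ n; rfl
      · intro hz
        have hz' : ∀ n, (z n).1 = (z 0).1 := hz
        have : (z 0).1 ∈ range e := by
          rw [hr]
          refine mem_iInter.mpr fun n => ?_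
          rw [← hz' n]
          exact (z n).2
        obtain ⟨x, hx⟩ := this
        refine ⟨x, ?_⟩
        funext n
        apply Subtype.ext
        show e x = (z n).1
        rw [hx, hz' n]
    rw [this]
    have h2 : {z : ∀ n, O n | ∀ n, (z n).1 = (z 0).1}
        = ⋂ n, {z : ∀ n, O n | (z n).1 = (z 0).1} := by
      ext z; simp
    rw [h2]
    exact isClosed_iInter fun n => isClosed_eq
      (continuous_subtype_val.comp (continuous_apply n))
      (continuous_subtype_val.comp (continuous_apply 0))
  exact (IsClosedEmbedding.mk hfe hfr).IsCompletelyMetrizableSpace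

section tree

variable {X Y : Type} [MetricSpace X] [MetricSpace Y] {e : X → Y}

/-- Point-finite refinement of the answers of the second player. -/
theorem exists_refinement (he : IsEmbedding e) (M : Machine X univ) (ε : ℝ) (hε : 0 < ε)
    (s : M.St) (W : Set Y) (hW : IsOpen W) (hWV : e ⁻¹' W ⊆ M.V s) :
    ∃ T : X → Set Y, (∀ x, IsOpen (T x)) ∧ (∀ x, T x ⊆ W) ∧ (∀ x, T x ⊆ Metric.ball (e x) ε) ∧
      (∀ x, (T x).Nonempty → e x ∈ W) ∧
      (∀ x, e ⁻¹' (T x) ⊆ M.V (M.next s x (e ⁻¹' W ∩ Metric.ball x ε))) ∧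
      (∀ y, {x | y ∈ T x}.Finite) ∧ (∀ x', e x' ∈ W → ∃ x, e x' ∈ T x) := by
  classical
  have hu : ∀ x : X, ∃ u : Set Y, IsOpen u ∧ u ⊆ W ∧ u ⊆ Metric.ball (e x) ε ∧
      (u.Nonempty → e x ∈ W) ∧ e ⁻¹' u ⊆ M.V (M.next s x (e ⁻¹' W ∩ Metric.ball x ε)) ∧
      (e x ∈ W → e x ∈ u) := by
    intro x
    by_cases hx : e x ∈ W
    · have hspec := M.spec s x (e ⁻¹' W ∩ Metric.ball x ε) ⟨hx, Metric.mem_ball_self hε⟩
        ((hW.preimage he.continuous).inter Metric.isOpen_ball) (inter_subset_left.trans hWV)
      obtain ⟨O, hO, hOeq⟩ := he.isInducing.isOpen_iff.mp hspec.1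
      refine ⟨O ∩ W ∩ Metric.ball (e x) ε, (hO.inter hW).inter Metric.isOpen_ball,
        fun y hy => hy.1.2, inter_subset_right, fun _ => hx, ?_, fun _ => ?_⟩
      · intro y hy
        rw [← hOeq]
        exact hy.1.1
      · refine ⟨⟨?_, hx⟩, Metric.mem_ball_self hε⟩
        have : x ∈ e ⁻¹' O := by rw [hOeq]; exact hspec.2.1
        exact this
    · exact ⟨∅, isOpen_empty, empty_subset _, empty_subset _, fun h => absurd h (by simp),
        by simp, fun h => absurd h hx⟩
  choose u huo huW hub hune huV hux using hu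
  set Ω : Set Y := ⋃ x, u x with hΩ
  have hΩo : IsOpen Ω := isOpen_iUnion huo
  obtain ⟨v, hvo, hvc, hvf, hvu⟩ := precise_refinement (fun x => (Subtype.val ⁻¹' (u x) : Set Ω))
    (fun x => (huo x).preimage continuous_subtype_val) (by
      rw [eq_univ_iff_forall]
      rintro ⟨y, hy⟩
      obtain ⟨x, hx⟩ := mem_iUnion.mp hy
      exact mem_iUnion.mpr ⟨x, hx⟩)
  refine ⟨fun x => Subtype.val '' (v x), fun x => hΩo.isOpenMap_subtype_val _ (hvo x), ?_, ?_, ?_,
    ?_, ?_, ?_⟩
  · rintro x _ ⟨y, hy, rfl⟩; exact huW x (hvu x hy)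
  · rintro x _ ⟨y, hy, rfl⟩; exact hub x (hvu x hy)
  · rintro x ⟨_, ⟨y, hy, rfl⟩⟩; exact hune x ⟨_, hvu x hy⟩
  · intro x z hz
    obtain ⟨y, hy, hyz⟩ := hz
    apply huV x
    show e z ∈ u x
    rw [← hyz]
    exact hvu x hy
  · intro y
    by_cases hy : y ∈ Ω
    · refine (hvf.point_finite ⟨y, hy⟩).subset ?_
      rintro x ⟨y', hy', rfl⟩
      exact hy'
    · refine Set.finite_empty.subset ?_
      rintro x ⟨y', hy', rfl⟩
      exact hy y'.2
  · intro x' hx'
    have h1 : e x' ∈ Ω := mem_iUnion.mpr ⟨x', hux x' hx'⟩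
    have h2 : (⟨e x', h1⟩ : Ω) ∈ ⋃ x, v x := by rw [hvc]; trivial
    obtain ⟨x, hx⟩ := mem_iUnion.mp h2
    exact ⟨x, ⟨_, hx, rfl⟩⟩

end tree

/-- Choquet: if the second player wins the strong Choquet game on a metric space, the space is
completely metrizable. -/
theorem completelyMetrizable_of_good {X : Type} [MetricSpace X] (h : Good (univ : Set X)) :
    IsCompletelyMetrizableSpace X := by
  classical
  obtain ⟨-, ⟨M⟩⟩ := h
  let Y := UniformSpace.Completion X
  let e : X → Y := fun x => (x : UniformSpace.Completion X)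
  have hiso : Isometry e := UniformSpace.Completion.coe_isometry
  have he : IsEmbedding e := hiso.isEmbedding
  have hT := fun (ε : ℝ) (hε : 0 < ε) (s : M.St) (W : Set Y) (hW : IsOpen W)
    (hWV : e ⁻¹' W ⊆ M.V s) => exists_refinement he M ε hε s W hW hWV
  choose! T hTo hTW hTb hTne hTV hTf hTc using hT
  let ε : ℕ → ℝ := fun n => 1 / ((n : ℝ) + 1)
  have hε : ∀ n, 0 < ε n := fun n => by positivity
  let node : List X → M.St × Set Y := fun l =>
    List.rec (M.init, (univ : Set Y))
      (fun x l' p => (M.next p.1 x (e ⁻¹' p.2 ∩ Metric.ball x (ε l'.length)),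
        T (ε l'.length) p.1 p.2 x)) l
  have node_nil : node [] = (M.init, univ) := rfl
  have node_cons : ∀ x l, node (x :: l) =
      (M.next (node l).1 x (e ⁻¹' (node l).2 ∩ Metric.ball x (ε l.length)),
        T (ε l.length) (node l).1 (node l).2 x) := fun x l => rfl
  have hinv : ∀ l, IsOpen (node l).2 ∧ e ⁻¹' (node l).2 ⊆ M.V (node l).1 := by
    intro l
    induction l with
    | nil => exact ⟨isOpen_univ, by rw [node_nil, M.V_init]; exact subset_univ _⟩
    | cons x l ih =>
      rw [node_cons]
      exact ⟨hTo _ (hε _) _ _ ih.1 ih.2 x, hTV _ (hε _) _ _ ih.1 ih.2 x⟩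
  have hmono : ∀ l1 l2, (node (l1 ++ l2)).2 ⊆ (node l2).2 := by
    intro l1 l2
    induction l1 with
    | nil => exact subset_rfl
    | cons x l ih =>
      rw [List.cons_append, node_cons]
      exact (hTW _ (hε _) _ _ (hinv _).1 (hinv _).2 x).trans ih
  let O : ℕ → Set Y := fun n => ⋃ l ∈ {l : List X | l.length = n}, (node l).2
  have hO : ∀ n, IsOpen (O n) := fun n => isOpen_biUnion fun l _ => (hinv l).1
  have hcov : ∀ n (x : X), ∃ l : List X, l.length = n ∧ e x ∈ (node l).2 := by
    intro n x
    induction n with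
    | zero => exact ⟨[], rfl, trivial⟩
    | succ n ih =>
      obtain ⟨l, hl, hx⟩ := ih
      obtain ⟨z, hz⟩ := hTc (ε l.length) (hε _) _ _ (hinv l).1 (hinv l).2 x hx
      exact ⟨z :: l, by simp [hl], hz⟩
  refine completelyMetrizable_of_embedding e he O hO ?_
  apply Subset.antisymm
  · rintro _ ⟨x, rfl⟩
    refine mem_iInter.mpr fun n => ?_
    obtain ⟨l, hl, hx⟩ := hcov n x
    exact mem_biUnion (show l ∈ {l : List X | l.length = n} from hl) hx
  · intro y hy
    rw [mem_iInter] at hy
    -- Koenig
    let G : List X → Prop := fun l => ∀ m : ℕ, ∃ l' : List X, m ≤ l'.length ∧ y ∈ (node (l' ++ l)).2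
    have hG0 : G [] := by
      intro m
      obtain ⟨l, hl, hyl⟩ := mem_iUnion₂.mp (hy m)
      have hl' : l.length = m := hl
      exact ⟨l, hl'.ge, by rw [List.append_nil]; exact hyl⟩
    have hGs : ∀ l, G l → ∃ x, G (x :: l) := by
      intro l hl
      by_contra hcon
      push Not at hcon
      have hm : ∀ x, ∃ m : ℕ, ∀ l' : List X, m ≤ l'.length → y ∉ (node (l' ++ (x :: l))).2 := by
        intro x
        have := hcon x
        simp only [G, not_forall, not_exists, not_and] at this
        exact this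
      choose m hm using hm
      have hfin : {x | y ∈ (node (x :: l)).2}.Finite :=
        hTf (ε l.length) (hε _) _ _ (hinv l).1 (hinv l).2 y
      obtain ⟨b, hb⟩ := (hfin.image m).bddAbove
      obtain ⟨l', hl', hyl'⟩ := hl (b + 1)
      have hne : l' ≠ [] := by
        rintro rfl
        simp at hl'
      obtain ⟨l'', x, rfl⟩ := (List.eq_nil_or_concat l').resolve_left hne
      rw [List.concat_eq_append] at hyl' hl'
      rw [List.append_assoc] at hyl'
      have hyl2 : y ∈ (node (l'' ++ (x :: l))).2 := hyl'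
      have hx : y ∈ (node (x :: l)).2 := hmono _ _ hyl2
      have h1 : m x ≤ b := hb ⟨x, hx, rfl⟩
      refine hm x l'' ?_ hyl2
      rw [List.length_append] at hl'
      simp at hl'
      omega
    haveI : Nonempty X := ⟨(hGs [] hG0).choose⟩
    choose! nx hnx using hGs
    let ls : ℕ → List X := fun n => Nat.rec [] (fun _ l => nx l :: l) n
    have ls_succ : ∀ n, ls (n + 1) = nx (ls n) :: ls n := fun n => rfl
    have hGls : ∀ n, G (ls n) := by
      intro n
      induction n with
      | zero => exact hG0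
      | succ n ih => rw [ls_succ]; exact hnx _ ih
    have hylen : ∀ n, (ls n).length = n := by
      intro n
      induction n with
      | zero => rfl
      | succ n ih => rw [ls_succ, List.length_cons, ih]
    have hyls : ∀ n, y ∈ (node (ls n)).2 := by
      intro n
      obtain ⟨l', -, h2⟩ := hGls n 0
      exact hmono _ _ h2
    have hyT : ∀ n, y ∈ T (ε n) (node (ls n)).1 (node (ls n)).2 (nx (ls n)) := by
      intro n
      have := hyls (n + 1)
      rw [ls_succ, node_cons, hylen] at this
      exact this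
    have hxW : ∀ n, e (nx (ls n)) ∈ (node (ls n)).2 := by
      intro n
      exact hTne (ε n) (hε _) _ _ (hinv _).1 (hinv _).2 _ ⟨y, hyT n⟩
    obtain ⟨z, hz⟩ := M.win (fun n => (node (ls n)).1) (fun n => nx (ls n))
      (fun n => e ⁻¹' (node (ls n)).2 ∩ Metric.ball (nx (ls n)) (ε n)) rfl (by
        intro n
        refine ⟨⟨hxW n, Metric.mem_ball_self (hε n)⟩,
          ((hinv _).1.preimage he.continuous).inter Metric.isOpen_ball,
          inter_subset_left.trans (hinv _).2, ?_⟩
        show (node (ls (n + 1))).1 = _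
        rw [ls_succ, node_cons, hylen])
    refine ⟨z, ?_⟩
    have hd : ∀ n, dist (e z) y < 2 * ε n := by
      intro n
      have h1 : dist z (nx (ls n)) < ε n := (hz n).2
      have h2 : dist y (e (nx (ls n))) < ε n :=
        hTb (ε n) (hε _) _ _ (hinv _).1 (hinv _).2 _ (hyT n)
      have h3 : dist (e z) (e (nx (ls n))) < ε n := by rw [hiso.dist_eq]; exact h1
      have h4 := dist_triangle_right (e z) y (e (nx (ls n)))
      linarith
    by_contra hne
    have hpos : 0 < dist (e z) y := dist_pos.mpr hne
    obtain ⟨n, hn⟩ := exists_nat_one_div_lt (half_pos hpos)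
    have := hd n
    simp only [ε] at this
    linarith

end Pool.Agent.Helper63.Wijsman
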