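import Pool.Agent.Helper63.Wijsman.Game

/-!
From a winning strategy on a hyperspace, in whose topology the small sets near the points of
`P` are detected by open sets, to a winning strategy inside `P`.
-/

namespace Pool.Agent.Helper63.Wijsman

open Set Topology

/-- Nonempty closed sets. -/
abbrev HX (X : Type) [TopologicalSpace X] : Type := {A : Set X // IsClosed A ∧ A.Nonempty}

/-- The singleton as a member of the hyperspace. -/
def sing {X : Type} [TopologicalSpace X] [T1Space X] (x : X) : HX X :=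
  ⟨{x}, isClosed_singleton, singleton_nonempty x⟩

theorem good_of_hyper {X : Type} [t : TopologicalSpace X] [T1Space X] (P : Set X)
    (hP : IsOpen P) (τ : TopologicalSpace (HX X)) (hsing : Continuous[t, τ] (sing : X → HX X))
    (hM : ∀ x ∈ P, ∀ U : Set X, IsOpen U → x ∈ U →
      ∃ N : Set (HX X), IsOpen[τ] N ∧ sing x ∈ N ∧ ∀ A ∈ N, A.1 ⊆ U)
    (σ : List (HX X × Set (HX X)) → Set (HX X))
    (hσ1 : ∀ (h : List (HX X × Set (HX X))) (y : HX X) (U : Set (HX X)), y ∈ U → IsOpen[τ] U →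
      IsOpen[τ] (σ (h ++ [(y, U)])) ∧ y ∈ σ (h ++ [(y, U)]) ∧ σ (h ++ [(y, U)]) ⊆ U)
    (hσ2 : ∀ p : ℕ → (HX X × Set (HX X)), (∀ n, (p n).1 ∈ (p n).2 ∧ IsOpen[τ] (p n).2) →
      (∀ n, (p (n + 1)).2 ⊆ σ (List.ofFn (fun i : Fin (n + 1) => p i.val))) →
      (⋂ n, σ (List.ofFn (fun i : Fin (n + 1) => p i.val))).Nonempty) : Good P := by
  classical
  choose! N hNo hNx hNU using hM
  let Vh : List (HX X × Set (HX X)) → Set (HX X) := fun h => if h = [] then univ else σ h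
  have Vh_nil : Vh [] = univ := if_pos rfl
  have Vh_app : ∀ h a, Vh (h ++ [a]) = σ (h ++ [a]) := fun h a => if_neg (by simp)
  let St := {h : List (HX X × Set (HX X)) // IsOpen[τ] (Vh h)}
  let mv : St → X → Set X → HX X × Set (HX X) := fun s x U => (sing x, Vh s.1 ∩ N x U)
  let nxt : St → X → Set X → St := fun s x U =>
    if hc : sing x ∈ Vh s.1 ∩ N x U ∧ IsOpen[τ] (N x U) then
      ⟨s.1 ++ [mv s x U], by
        rw [Vh_app]
        exact (hσ1 s.1 (sing x) (Vh s.1 ∩ N x U) hc.1 (IsOpen.inter s.2 hc.2)).1⟩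
    else s
  let V : St → Set X := fun s => {x | x ∈ P ∧ sing x ∈ Vh s.1}
  let ini : St := ⟨[], by rw [Vh_nil]; exact isOpen_univ⟩
  have hnext : ∀ (s : St) x U, x ∈ U → IsOpen U → U ⊆ V s →
      (nxt s x U).1 = s.1 ++ [mv s x U] := by
    intro s x U hx hU hUV
    have hxP : x ∈ P := (hUV hx).1
    have hc : sing x ∈ Vh s.1 ∩ N x U ∧ IsOpen[τ] (N x U) :=
      ⟨⟨(hUV hx).2, hNx x hxP U hU hx⟩, hNo x hxP U hU hx⟩
    simp only [nxt, hc, and_self, dif_pos]
  refine ⟨hP, ⟨⟨St, ini, V, nxt, ?_, ?_, ?_⟩⟩⟩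
  · ext x
    simp [V, ini, Vh_nil]
  · intro s x U hx hU hUV
    have hxP : x ∈ P := (hUV hx).1
    have h1 := hσ1 s.1 (sing x) (Vh s.1 ∩ N x U) ⟨(hUV hx).2, hNx x hxP U hU hx⟩
      (IsOpen.inter s.2 (hNo x hxP U hU hx))
    have hV : V (nxt s x U) = P ∩ sing ⁻¹' (σ (s.1 ++ [mv s x U])) := by
      show {x' | x' ∈ P ∧ sing x' ∈ Vh (nxt s x U).1} = _
      rw [hnext s x U hx hU hUV, Vh_app]
      rfl
    rw [hV]
    refine ⟨hP.inter (h1.1.preimage hsing), ⟨hxP, h1.2.1⟩, ?_⟩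
    rintro x' ⟨_, hx'⟩
    have h2 : sing x' ∈ N x U := (h1.2.2 hx').2
    exact hNU x hxP U hU hx (sing x') h2 rfl
  · intro s x U hs0 hstep
    let p : ℕ → HX X × Set (HX X) := fun n => mv (s n) (x n) (U n)
    have hs : ∀ n, (s n).1 = List.ofFn (fun i : Fin n => p i.val) := by
      intro n
      induction n with
      | zero => rw [hs0]; simp [ini]
      | succ n ih =>
        rw [(hstep n).2.2.2, hnext _ _ _ (hstep n).1 (hstep n).2.1 (hstep n).2.2.1, ih,
          List.ofFn_succ']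
        simp [p]
    have hpP : ∀ n, x n ∈ P := fun n => ((hstep n).2.2.1 (hstep n).1).1
    have hp1 : ∀ n, (p n).1 ∈ (p n).2 ∧ IsOpen[τ] (p n).2 := fun n =>
      ⟨⟨((hstep n).2.2.1 (hstep n).1).2, hNx _ (hpP n) _ (hstep n).2.1 (hstep n).1⟩,
        IsOpen.inter (s n).2 (hNo _ (hpP n) _ (hstep n).2.1 (hstep n).1)⟩
    have hVs : ∀ n, Vh (s (n + 1)).1 = σ (List.ofFn (fun i : Fin (n + 1) => p i.val)) := by
      intro n
      rw [hs (n + 1)]
      exact if_neg (by simp)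
    have hp2 : ∀ n, (p (n + 1)).2 ⊆ σ (List.ofFn (fun i : Fin (n + 1) => p i.val)) := by
      intro n
      rw [← hVs n]
      exact inter_subset_left
    obtain ⟨A, hA⟩ := hσ2 p hp1 hp2
    obtain ⟨y, hy⟩ := A.2.2
    refine ⟨y, fun n => ?_⟩
    have hAn := mem_iInter.mp hA n
    have hsub : σ (List.ofFn (fun i : Fin (n + 1) => p i.val)) ⊆ (p n).2 := by
      have h1 := (hσ1 (s n).1 (p n).1 (p n).2 (hp1 n).1 (hp1 n).2).2.2
      have h2 : (s n).1 ++ [((p n).1, (p n).2)] = List.ofFn (fun i : Fin (n + 1) => p i.val) := by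
        rw [hs n, List.ofFn_succ' (n := n)]
        simp
      rw [h2] at h1
      exact h1
    exact hNU _ (hpP n) _ (hstep n).2.1 (hstep n).1 A (hsub hAn).2 hy

end Pool.Agent.Helper63.Wijsman
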