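import Pool.Agent.Helper63.Wijsman.Metric

/-!
A compatible metric which controls small sets near one member of a discrete family of balls.
-/

namespace Pool.Agent.Helper63.Wijsman

open Set Topology

/-- Maximal separated subsets. -/
theorem exists_maximal_separated {X : Type} [MetricSpace X] (P : Set X) (ε : ℝ) (hε : 0 < ε) :
    ∃ S ⊆ P, (∀ x ∈ S, ∀ y ∈ S, x ≠ y → ε ≤ dist x y) ∧ ∀ x ∈ P, ∃ z ∈ S, dist z x < ε := by
  obtain ⟨S, hS⟩ := zorn_subset {S : Set X | S ⊆ P ∧ ∀ x ∈ S, ∀ y ∈ S, x ≠ y → ε ≤ dist x y} (by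
    intro c hc hchain
    refine ⟨⋃₀ c, ⟨sUnion_subset fun s hs => (hc hs).1, ?_⟩, fun s hs => subset_sUnion_of_mem hs⟩
    rintro x ⟨s, hs, hxs⟩ y ⟨t, ht, hyt⟩ hxy
    rcases hchain.total hs ht with h | h
    · exact (hc ht).2 x (h hxs) y hyt hxy
    · exact (hc hs).2 x hxs y (h hyt) hxy)
  refine ⟨S, hS.prop.1, hS.prop.2, fun x hx => ?_⟩
  by_contra hcon
  push Not at hcon
  have hins : insert x S ∈ {S : Set X | S ⊆ P ∧ ∀ x ∈ S, ∀ y ∈ S, x ≠ y → ε ≤ dist x y} := by
    refine ⟨insert_subset hx hS.prop.1, ?_⟩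
    rintro a (rfl | ha) b (rfl | hb) hab
    · exact absurd rfl hab
    · rw [dist_comm]; exact hcon b hb
    · exact hcon a ha
    · exact hS.prop.2 a ha b hb hab
  have hxS : x ∈ S := hS.le_of_ge hins (subset_insert x S) (mem_insert x S)
  have := hcon x hxS
  rw [dist_self] at this
  linarith

/-- If all the separated nets have at most `n` points then the set has at most `n` points. -/
theorem finite_of_nets {X : Type} [MetricSpace X] (P : Set X) (S : ℕ → Set X)
    (hnet : ∀ k, ∀ x ∈ P, ∃ z ∈ S k, dist z x < (1 / 2 : ℝ) ^ k) (n : ℕ)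
    (hcard : ∀ k, Cardinal.mk (S k) ≤ n) : P.Finite := by
  by_contra hinf
  obtain ⟨F, hFP, hFc⟩ := Set.Infinite.exists_subset_card_eq (s := P) hinf (n + 1)
  -- minimal distance
  have hpos : ∃ ε > 0, ∀ x ∈ F, ∀ y ∈ F, x ≠ y → ε ≤ dist x y := by
    by_cases hne : (F.offDiag).Nonempty
    · obtain ⟨p, hp, hmin⟩ := Finset.exists_min_image F.offDiag (fun p => dist p.1 p.2) hne
      refine ⟨dist p.1 p.2, ?_, ?_⟩
      · rw [Finset.mem_offDiag] at hp
        exact dist_pos.mpr hp.2.2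
      · intro x hx y hy hxy
        exact hmin (x, y) (by rw [Finset.mem_offDiag]; exact ⟨hx, hy, hxy⟩)
    · refine ⟨1, one_pos, fun x hx y hy hxy => ?_⟩
      exact absurd ⟨(x, y), by rw [Finset.mem_offDiag]; exact ⟨hx, hy, hxy⟩⟩ hne
  obtain ⟨ε, hε, hsep⟩ := hpos
  obtain ⟨k, hk⟩ := exists_pow_lt_of_lt_one (half_pos hε) (by norm_num : (1 / 2 : ℝ) < 1)
  have hz : ∀ x : F, ∃ z : S k, dist (z : X) x < (1 / 2 : ℝ) ^ k := by
    intro x
    obtain ⟨z, hz, hd⟩ := hnet k x (hFP x.2)
    exact ⟨⟨z, hz⟩, hd⟩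
  choose z hz using hz
  have hinj : Function.Injective z := by
    intro x y hxy
    by_contra hne
    have h1 := hz x
    have h2 := hz y
    rw [hxy] at h1
    have h3 := hsep x x.2 y y.2 (fun h => hne (Subtype.ext h))
    have h4 := dist_triangle_left (x : X) (y : X) (z y : X)
    linarith
  have h1 := Cardinal.mk_le_of_injective hinj
  have h2 : Cardinal.mk F = (n + 1 : ℕ) := by
    rw [Cardinal.mk_coe_finset, hFc]
  rw [h2] at h1
  have h3 := h1.trans (hcard k)
  rw [Nat.cast_le] at h3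
  omega

theorem exists_injection {X : Type} [MetricSpace X] (P : ℕ → Set X) (S : ℕ → ℕ → Set X)
    (hPinf : ∀ j, (P j).Infinite) (hPdisj : ∀ i j, i ≠ j → Disjoint (P i) (P j))
    (hSP : ∀ j k, S j k ⊆ P j)
    (hnet : ∀ j k, ∀ x ∈ P j, ∃ z ∈ S j k, dist z x < (1 / 2 : ℝ) ^ k) :
    ∃ (j0 : ℕ) (reg m : ℕ → ℕ) (w : (Σ k, S j0 k) → X), Function.Injective w ∧
      (∀ k, reg k ≠ j0) ∧ ∀ p, w p ∈ S (reg p.1) (m (reg p.1)) := by
  classical
  by_cases hcase : ∃ i j k, i ≠ j ∧ ∀ m, Cardinal.mk (S j m) ≤ Cardinal.mk (S i k)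
  · obtain ⟨i, j, k, hij, hm⟩ := hcase
    have hinf : Cardinal.aleph0 ≤ Cardinal.mk (S i k) := by
      by_contra hlt
      push Not at hlt
      obtain ⟨n, hn⟩ := Cardinal.lt_aleph0.mp hlt
      exact hPinf j (finite_of_nets (P j) (S j) (hnet j) n (fun m => hn ▸ hm m))
    have hle : Cardinal.mk (Σ m, S j m) ≤ Cardinal.mk (S i k) := by
      rw [Cardinal.mk_sigma]
      calc Cardinal.sum (fun m => Cardinal.mk (S j m))
          ≤ Cardinal.sum (fun _ : ℕ => Cardinal.mk (S i k)) := Cardinal.sum_le_sum _ _ hm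
        _ = Cardinal.aleph0 * Cardinal.mk (S i k) := by simp
        _ = Cardinal.mk (S i k) := Cardinal.aleph0_mul_eq hinf
    obtain ⟨f⟩ := Cardinal.le_def _ _ |>.mp hle
    refine ⟨j, fun _ => i, fun _ => k, fun p => (f p : X), ?_, fun _ => hij, fun p => (f p).2⟩
    intro p p' h
    exact f.injective (Subtype.ext h)
  · push Not at hcase
    have h1 : ∀ k, ∃ m, Nonempty (S 0 k ↪ S (k + 1) m) := by
      intro k
      obtain ⟨m, hm⟩ := hcase 0 (k + 1) k (by omega)
      exact ⟨m, (Cardinal.le_def _ _).mp hm.le⟩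
    choose m hm using h1
    refine ⟨0, fun k => k + 1, fun j => m (j - 1), fun p => ((hm p.1).some p.2 : X), ?_,
      fun k => Nat.succ_ne_zero k, fun p => ?_⟩
    · rintro ⟨k, z⟩ ⟨k', z'⟩ h
      have hk : k = k' := by
        by_contra hne
        have h2 := hPdisj (k + 1) (k' + 1) (by omega)
        refine Set.disjoint_left.mp h2 (hSP _ _ ((hm k).some z).2) ?_
        have h3 : ((hm k).some z : X) = ((hm k').some z' : X) := h
        rw [h3]
        exact hSP _ _ ((hm k').some z').2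
      subst hk
      have h3 : ((hm k).some z : X) = ((hm k).some z' : X) := h
      have := (hm k).some.injective (Subtype.ext h3)
      rw [this]
    · exact ((hm p.1).some p.2).2

/-- A compatible metric for which the small neighbourhoods of the points of one of the balls
are detected by the distance from suitable points. -/
theorem exists_metric_local {X : Type} [inst : MetricSpace X] (q : ℕ → X) (δ : ℕ → ℝ)
    (hδ : ∀ n, 0 < δ n) (hδ1 : ∀ n, δ n ≤ 1)
    (hdisj : ∀ i j, i ≠ j → Disjoint (Metric.ball (q i) (2 * δ i)) (Metric.ball (q j) (2 * δ j)))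
    (hlf : LocallyFinite fun i => Metric.ball (q i) (2 * δ i))
    (hinf : ∀ i, (Metric.ball (q i) (δ i)).Infinite) :
    ∃ (j0 : ℕ) (m : MetricSpace X),
      m.toUniformSpace.toTopologicalSpace = inst.toUniformSpace.toTopologicalSpace ∧
      ∀ x ∈ @Metric.ball X inst.toPseudoMetricSpace (q j0) (δ j0), ∀ U : Set X,
        IsOpen[inst.toUniformSpace.toTopologicalSpace] U → x ∈ U →
        ∃ (a : X) (b : ℝ), 0 ≤ b ∧ b < m.toDist.dist a x ∧ ∀ y, b < m.toDist.dist a y → y ∈ U := by
  classical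
  have hS := fun (j k : ℕ) => exists_maximal_separated (Metric.ball (q j) (δ j))
    ((1 / 2 : ℝ) ^ k) (by positivity)
  choose S hSP hSsep hSnet using hS
  have hsub : ∀ j, Metric.ball (q j) (δ j) ⊆ Metric.ball (q j) (2 * δ j) := fun j =>
    Metric.ball_subset_ball (by linarith [hδ j])
  obtain ⟨j0, reg, m, w, hwinj, hreg, hw⟩ := exists_injection
    (fun j => Metric.ball (q j) (δ j)) S hinf
    (fun i j hij => (hdisj i j hij).mono (hsub i) (hsub j)) hSP hSnet
  obtain ⟨k0, hk0⟩ := exists_pow_lt_of_lt_one (show (0 : ℝ) < δ j0 / 4 by linarith [hδ j0])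
    (by norm_num : (1 / 2 : ℝ) < 1)
  let I := {p : Σ k, S j0 k // k0 ≤ p.1}
  have hcle : ∀ i : I, 4 * (1 / 2 : ℝ) ^ i.1.1 ≤ δ j0 := by
    intro i
    have : (1 / 2 : ℝ) ^ i.1.1 ≤ (1 / 2 : ℝ) ^ k0 :=
      pow_le_pow_of_le_one (by norm_num) (by norm_num) i.2
    linarith
  have hzball : ∀ i : I, dist (i.1.2 : X) (q j0) < δ j0 := fun i => hSP _ _ i.1.2.2
  have hwball : ∀ i : I, dist (w i.1) (q (reg i.1.1)) < δ (reg i.1.1) := fun i => hSP _ _ (hw i.1)
  obtain ⟨mm, htop, hub, hlb⟩ := exists_metric_analytic (X := X) (I := I)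
    (fun i => (i.1.2 : X)) (fun i => w i.1) (fun i => (1 / 2 : ℝ) ^ i.1.1)
    (fun i => reg i.1.1) (fun j => min ((1 / 2 : ℝ) ^ (m j)) (δ j))
    (fun i => by positivity)
    (fun i => (hcle i).trans (hδ1 j0))
    (by
      intro i j hij
      have hne : w j.1 ≠ w i.1 := fun h => hij (Subtype.ext (hwinj h.symm))
      by_cases hr : reg i.1.1 = reg j.1.1
      · refine (min_le_left _ _).trans ?_
        have h1 := hw i.1
        rw [hr] at h1
        exact hSsep _ _ _ (hw j.1) _ h1 hne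
      · refine (min_le_right _ _).trans ?_
        by_contra hlt
        push Not at hlt
        refine Set.disjoint_left.mp (hdisj _ _ hr) (hsub _ (hSP _ _ (hw i.1))) ?_
        rw [Metric.mem_ball]
        have h2 := dist_triangle_left (w i.1) (q (reg j.1.1)) (w j.1)
        have h3 := hwball j
        linarith)
    (by
      intro i j
      by_contra hlt
      push Not at hlt
      refine Set.disjoint_left.mp (hdisj _ _ (hreg i.1.1)) (hsub _ (hSP _ _ (hw i.1))) ?_
      rw [Metric.mem_ball]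
      have h1 := hzball j
      have h2 := dist_triangle_left (w i.1) (q j0) (j.1.2 : X)
      have h3 := hcle j
      linarith)
    (by
      intro i x hx
      by_contra hlt
      push Not at hlt
      have hlt' : dist (w i.1) x < δ (reg i.1.1) := lt_of_lt_of_le hlt (min_le_right _ _)
      have hcon : x ∈ Metric.ball (q (reg i.1.1)) (2 * δ (reg i.1.1)) ∧
          x ∈ Metric.ball (q j0) (2 * δ j0) := by
        constructor
        · rw [Metric.mem_ball]
          have h2 := dist_triangle_left x (q (reg i.1.1)) (w i.1)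
          have h3 := hwball i
          linarith
        · rw [Metric.mem_ball]
          have h2 := dist_triangle_left x (q j0) (i.1.2 : X)
          have h3 := hzball i
          have h4 := hcle i
          have h5 : (0 : ℝ) < (1 / 2 : ℝ) ^ i.1.1 := by positivity
          linarith
      exact Set.disjoint_left.mp (hdisj _ _ (hreg i.1.1)) hcon.1 hcon.2)
    (fun j => lt_min (by positivity) (hδ j))
    (by
      intro x
      obtain ⟨t, ht, hfin⟩ := hlf x
      refine ⟨t, ht, hfin.subset ?_⟩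
      rintro j ⟨i, rfl, y, hyt, hy⟩
      refine ⟨y, ?_, hyt⟩
      have hlt' : dist (w i.1) y < δ (reg i.1.1) := lt_of_lt_of_le hy (min_le_right _ _)
      rw [Metric.mem_ball]
      have h2 := dist_triangle_left y (q (reg i.1.1)) (w i.1)
      have h3 := hwball i
      linarith)
  refine ⟨j0, mm, htop, ?_⟩
  intro x hx U hU hxU
  obtain ⟨ε, hε, hball⟩ := (@Metric.isOpen_iff X inst.toPseudoMetricSpace U).mp hU x hxU
  obtain ⟨k1, hk1⟩ := exists_pow_lt_of_lt_one (show (0 : ℝ) < ε / 3 by linarith)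
    (by norm_num : (1 / 2 : ℝ) < 1)
  set k := max k0 k1 with hk
  obtain ⟨z, hz, hzx⟩ := hSnet j0 k x hx
  let i : I := ⟨⟨k, ⟨z, hz⟩⟩, le_max_left _ _⟩
  have hc : (0 : ℝ) < (1 / 2 : ℝ) ^ k := by positivity
  have hckε : 3 * (1 / 2 : ℝ) ^ k < ε := by
    have : (1 / 2 : ℝ) ^ k ≤ (1 / 2 : ℝ) ^ k1 :=
      pow_le_pow_of_le_one (by norm_num) (by norm_num) (le_max_right _ _)
    linarith
  refine ⟨w i.1, 2 + 2 * (1 / 2 : ℝ) ^ k, by positivity, ?_, ?_⟩
  · have := hlb i x hzx
    have h2 : 2 + 3 * (1 / 2 : ℝ) ^ k < mm.toDist.dist (w i.1) x := this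
    linarith
  · intro y hy
    have h1 : mm.toDist.dist (w i.1) y ≤ 2 + max (4 * (1 / 2 : ℝ) ^ k - inst.toDist.dist z y) 0 :=
      hub i y
    have h2 : 2 * (1 / 2 : ℝ) ^ k < max (4 * (1 / 2 : ℝ) ^ k - inst.toDist.dist z y) 0 := by
      linarith
    have h3 : 2 * (1 / 2 : ℝ) ^ k < 4 * (1 / 2 : ℝ) ^ k - inst.toDist.dist z y := by
      rcases lt_max_iff.mp h2 with h | h
      · exact h
      · linarith
    apply hball
    rw [@Metric.mem_ball X inst.toPseudoMetricSpace]
    have h4 : @dist X inst.toDist y x ≤ @dist X inst.toDist z y + @dist X inst.toDist z x :=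
      @dist_triangle_left X inst.toPseudoMetricSpace y x z
    have h5 : @dist X inst.toDist z x < (1 / 2 : ℝ) ^ k := hzx
    linarith

end Pool.Agent.Helper63.Wijsman
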