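import Pool.Agent.Helper63.Wijsman.Game

/-!
A closed noncompact set contains a closed discrete sequence, with a discrete family of balls.
-/

namespace Pool.Agent.Helper63.Wijsman

open Set Topology Metric Filter

theorem exists_discrete_seq {X : Type} [MetricSpace X] (B : Set X) (hB : IsClosed B)
    (hnc : ¬ IsCompact B) :
    ∃ q : ℕ → X, Function.Injective q ∧ (∀ n, q n ∈ B) ∧
      ∀ x, ∃ ε : ℝ, 0 < ε ∧ {n | dist (q n) x < ε}.Finite := by
  classical
  rw [_root_.isCompact_iff_isSeqCompact] at hnc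
  unfold IsSeqCompact at hnc
  push Not at hnc
  obtain ⟨u, huB, hu⟩ := hnc
  have hfin : ∀ x, ∃ ε : ℝ, 0 < ε ∧ {n | dist (u n) x < ε}.Finite := by
    intro x
    by_contra hcon
    push Not at hcon
    have hcl : MapClusterPt x atTop u := by
      rw [mapClusterPt_iff_frequently]
      intro s hs
      obtain ⟨ε, hε, hs'⟩ := Metric.mem_nhds_iff.mp hs
      rw [Nat.frequently_atTop_iff_infinite]
      exact (hcon ε hε).mono fun n hn => hs' hn
    obtain ⟨ψ, hψ, hlim⟩ := MapClusterPt.tendsto_subseq hcl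
    have hxB : x ∈ B := hB.mem_of_tendsto hlim (Eventually.of_forall fun n => huB _)
    exact hu x hxB ψ hψ hlim
  have hR : (range u).Infinite := by
    intro hfinR
    have h1 : (univ : Set ℕ).Finite := by
      have : (univ : Set ℕ) ⊆ ⋃ y ∈ range u, {n | u n = y} := by
        intro n _
        exact mem_biUnion (mem_range_self n) rfl
      refine Set.Finite.subset (hfinR.biUnion fun y _ => ?_) this
      obtain ⟨ε, hε, hf⟩ := hfin y
      refine hf.subset ?_
      rintro n rfl
      show dist (u n) (u n) < ε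
      rw [dist_self]; exact hε
    exact Set.infinite_univ h1
  refine ⟨fun n => (Set.Infinite.natEmbedding _ hR n : X), ?_, ?_, ?_⟩
  · intro a b hab
    exact (Set.Infinite.natEmbedding _ hR).injective (Subtype.ext hab)
  · intro n
    obtain ⟨k, hk⟩ := (Set.Infinite.natEmbedding _ hR n).2
    show ((Set.Infinite.natEmbedding _ hR n : X)) ∈ B
    rw [← hk]; exact huB k
  · intro x
    obtain ⟨ε, hε, hf⟩ := hfin x
    refine ⟨ε, hε, ?_⟩
    refine Set.Finite.of_finite_image (f := fun n => (Set.Infinite.natEmbedding _ hR n : X))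
      ((hf.image u).subset ?_) ?_
    · rintro y ⟨n, hn, rfl⟩
      obtain ⟨k, hk⟩ := (Set.Infinite.natEmbedding _ hR n).2
      refine ⟨k, ?_, hk⟩
      show dist (u k) x < ε
      rw [hk]; exact hn
    · intro a _ b _ hab
      exact (Set.Infinite.natEmbedding _ hR).injective (Subtype.ext hab)

theorem exists_discrete_balls {X : Type} [MetricSpace X] (q : ℕ → X)
    (hinj : Function.Injective q)
    (hq : ∀ x, ∃ ε : ℝ, 0 < ε ∧ {n | dist (q n) x < ε}.Finite) :
    ∃ δ : ℕ → ℝ, (∀ n, 0 < δ n) ∧ (∀ n, δ n ≤ 1) ∧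
      (∀ i j, i ≠ j → Disjoint (ball (q i) (2 * δ i)) (ball (q j) (2 * δ j))) ∧
      LocallyFinite fun i => ball (q i) (2 * δ i) := by
  classical
  have hsep : ∀ m, ∃ ε : ℝ, 0 < ε ∧ ∀ n, n ≠ m → ε ≤ dist (q n) (q m) := by
    intro m
    obtain ⟨ε, hε, hf⟩ := hq (q m)
    have hf' : ({n | dist (q n) (q m) < ε} \ {m}).Finite := hf.subset sdiff_subset
    by_cases hne : ({n | dist (q n) (q m) < ε} \ {m}).Nonempty
    · obtain ⟨k, hk, hmin⟩ := Set.exists_min_image _ (fun n => dist (q n) (q m)) hf' hne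
      refine ⟨dist (q k) (q m), ?_, fun n hn => ?_⟩
      · exact dist_pos.mpr fun h => hk.2 (hinj h)
      · by_cases h : dist (q n) (q m) < ε
        · exact hmin n ⟨h, hn⟩
        · exact le_trans hk.1.le (not_lt.mp h)
    · refine ⟨ε, hε, fun n hn => ?_⟩
      by_contra h
      exact hne ⟨n, not_le.mp h, hn⟩
  choose ε hε hsep using hsep
  have hδ : ∀ n, 0 < min (ε n / 4) ((1 / 2 : ℝ) ^ n) := fun n =>
    lt_min (by linarith [hε n]) (by positivity)
  refine ⟨fun n => min (ε n / 4) ((1 / 2 : ℝ) ^ n), hδ, ?_, ?_, ?_⟩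
  · intro n
    exact (min_le_right _ _).trans (pow_le_one₀ (by norm_num) (by norm_num))
  · intro i j hij
    rw [Set.disjoint_left]
    intro y hyi hyj
    rw [mem_ball] at hyi hyj
    have h1 := min_le_left (ε i / 4) ((1 / 2 : ℝ) ^ i)
    have h2 := min_le_left (ε j / 4) ((1 / 2 : ℝ) ^ j)
    have h3 := hsep i j (Ne.symm hij)
    have h4 := hsep j i hij
    have h5 : dist (q i) (q j) ≤ dist y (q i) + dist y (q j) := by
      rw [dist_comm y (q i)]; exact dist_triangle _ _ _
    have h6 : dist (q j) (q i) = dist (q i) (q j) := dist_comm _ _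
    linarith
  · intro x
    obtain ⟨η, hη, hf⟩ := hq x
    obtain ⟨N, hN⟩ := exists_pow_lt_of_lt_one (show (0 : ℝ) < η / 4 by linarith)
      (by norm_num : (1 / 2 : ℝ) < 1)
    refine ⟨ball x (η / 2), ball_mem_nhds _ (by linarith), ?_⟩
    refine (hf.union (Set.finite_lt_nat N)).subset ?_
    rintro n ⟨y, hy1, hy2⟩
    by_cases hnN : n < N
    · exact Or.inr hnN
    · left
      show dist (q n) x < η
      rw [mem_ball] at hy1 hy2
      have h1 : (1 / 2 : ℝ) ^ n ≤ (1 / 2 : ℝ) ^ N :=
        pow_le_pow_of_le_one (by norm_num) (by norm_num) (not_lt.mp hnN)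
      have h2 := min_le_right (ε n / 4) ((1 / 2 : ℝ) ^ n)
      have h3 : dist (q n) x ≤ dist y (q n) + dist y x := by
        rw [dist_comm y (q n)]; exact dist_triangle _ _ _
      linarith

/-- An isolated point is good. -/
theorem good_singleton {X : Type} [TopologicalSpace X] {x : X} (h : IsOpen ({x} : Set X)) :
    Good ({x} : Set X) := by
  refine ⟨h, ⟨⟨Unit, (), fun _ => {x}, fun _ _ _ => (), rfl, ?_, ?_⟩⟩⟩
  · intro s y U hy hU hUx
    refine ⟨h, hUx hy, ?_⟩
    have hyx : y = x := hUx hy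
    rw [← hyx]
    exact singleton_subset_iff.mpr hy
  · intro s y U _ hstep
    refine ⟨x, fun n => ?_⟩
    have h1 : y n ∈ ({x} : Set X) := (hstep n).2.2.1 (hstep n).1
    have h2 : y n = x := h1
    rw [← h2]
    exact (hstep n).1

theorem infinite_ball {X : Type} [MetricSpace X] {x : X} {r : ℝ} (hr : 0 < r)
    (hbad : ¬ ∃ P, x ∈ P ∧ Good P) : (ball x r).Infinite := by
  intro hfin
  apply hbad
  refine ⟨{x}, rfl, good_singleton ?_⟩
  have h1 : IsClosed (ball x r \ {x}) := (hfin.subset sdiff_subset).isClosed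
  have h2 : ({x} : Set X) = ball x r \ (ball x r \ {x}) := by
    ext y
    constructor
    · rintro rfl
      exact ⟨mem_ball_self hr, fun h => h.2 rfl⟩
    · rintro ⟨h3, h4⟩
      by_contra hne
      exact h4 ⟨h3, hne⟩
  rw [h2]
  exact isOpen_ball.sdiff h1

end Pool.Agent.Helper63.Wijsman
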