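import Pool.Agent.Helper63.Wijsman.Complete
import Pool.Agent.Helper63.Wijsman.Local
import Pool.Agent.Helper63.Wijsman.Hyper
import Pool.Agent.Helper63.Wijsman.Seq

/-!
The final assembly.
-/

set_option linter.deprecated false

namespace Pool.Agent.Helper63.Wijsman

open Set Topology Metric Filter

theorem infEdist_sing {X : Type} [m : MetricSpace X] (a x : X) :
    @EMetric.infEdist X m.toPseudoEMetricSpace a {x} = edist a x := by
  exact Metric.infEDist_singleton

theorem sing_continuous {X : Type} (t : TopologicalSpace X) [T1Space X] (m : MetricSpace X)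
    (hm : m.toUniformSpace.toTopologicalSpace = t) (τ : TopologicalSpace (HX X))
    (hτ : τ = ⨅ x : X, TopologicalSpace.induced
      (fun A : HX X => @EMetric.infEdist X m.toPseudoEMetricSpace x A.1)
      (inferInstance : TopologicalSpace ENNReal)) :
    Continuous[t, τ] (sing : X → HX X) := by
  subst hm
  rw [hτ]
  rw [continuous_iInf_rng]
  intro a
  rw [continuous_induced_rng]
  have : ((fun A : HX X => @EMetric.infEdist X m.toPseudoEMetricSpace a A.1) ∘ sing) =
      fun x => edist a x := by
    funext x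
    exact infEdist_sing a x
  rw [this]
  fun_prop

theorem isOpen_gt {X : Type} (t : TopologicalSpace X) (m : MetricSpace X)
    (τ : TopologicalSpace (HX X))
    (hτ : τ = ⨅ x : X, TopologicalSpace.induced
      (fun A : HX X => @EMetric.infEdist X m.toPseudoEMetricSpace x A.1)
      (inferInstance : TopologicalSpace ENNReal)) (a : X) (c : ENNReal) :
    IsOpen[τ] {A : HX X | c < @EMetric.infEdist X m.toPseudoEMetricSpace a A.1} := by
  have h1 : Continuous[τ, inferInstance]
      (fun A : HX X => @EMetric.infEdist X m.toPseudoEMetricSpace a A.1) := by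
    rw [continuous_iff_le_induced, hτ]
    exact iInf_le _ a
  exact isOpen_Ioi.preimage h1

theorem exists_small {X : Type} (t : TopologicalSpace X) [T1Space X] (m : MetricSpace X)
    (τ : TopologicalSpace (HX X))
    (hτ : τ = ⨅ x : X, TopologicalSpace.induced
      (fun A : HX X => @EMetric.infEdist X m.toPseudoEMetricSpace x A.1)
      (inferInstance : TopologicalSpace ENNReal)) (x : X) (U : Set X)
    (h : ∃ (a : X) (b : ℝ), 0 ≤ b ∧ b < m.toDist.dist a x ∧
      ∀ y, b < m.toDist.dist a y → y ∈ U) :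
    ∃ N : Set (HX X), IsOpen[τ] N ∧ sing x ∈ N ∧ ∀ A ∈ N, A.1 ⊆ U := by
  obtain ⟨a, b, hb, hbx, hby⟩ := h
  refine ⟨{A : HX X | ENNReal.ofReal b < @EMetric.infEdist X m.toPseudoEMetricSpace a A.1},
    isOpen_gt t m τ hτ a _, ?_, ?_⟩
  · show ENNReal.ofReal b < @EMetric.infEdist X m.toPseudoEMetricSpace a {x}
    rw [infEdist_sing, edist_dist]
    exact (ENNReal.ofReal_lt_ofReal_iff_of_nonneg hb).mpr hbx
  · intro A hA y hy
    apply hby
    have h1 : @EMetric.infEdist X m.toPseudoEMetricSpace a A.1 ≤ edist a y :=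
      Metric.infEDist_le_edist_of_mem hy
    have h2 : ENNReal.ofReal b < edist a y := lt_of_lt_of_le hA h1
    rw [edist_dist] at h2
    exact (ENNReal.ofReal_lt_ofReal_iff_of_nonneg hb).mp h2

theorem wijsman_main (X : Type) (t : TopologicalSpace X)
    (hmet : TopologicalSpace.MetrizableSpace X)
    (H : ∀ (m : MetricSpace X), m.toUniformSpace.toTopologicalSpace = t →
      ∀ τ : TopologicalSpace (HX X),
        τ = ⨅ x : X, TopologicalSpace.induced
              (fun A : HX X => @EMetric.infEdist X m.toPseudoEMetricSpace x A.1)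
              (inferInstance : TopologicalSpace ENNReal) →
        ∃ σ : List (HX X × Set (HX X)) → Set (HX X),
          (∀ (h : List (HX X × Set (HX X))) (y : HX X) (U : Set (HX X)),
              y ∈ U → @IsOpen _ τ U →
                @IsOpen _ τ (σ (h ++ [(y, U)])) ∧ y ∈ σ (h ++ [(y, U)]) ∧
                  σ (h ++ [(y, U)]) ⊆ U) ∧
          ∀ p : ℕ → (HX X × Set (HX X)),
            (∀ n, (p n).1 ∈ (p n).2 ∧ @IsOpen _ τ (p n).2) →
            (∀ n, (p (n + 1)).2 ⊆ σ (List.ofFn (fun i : Fin (n + 1) => p i.val))) →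
            (⋂ n, σ (List.ofFn (fun i : Fin (n + 1) => p i.val))).Nonempty) :
    ∃ m : MetricSpace X, m.toUniformSpace.toTopologicalSpace = t ∧
      @CompleteSpace X m.toUniformSpace := by
  obtain ⟨inst, hinst⟩ : ∃ m : MetricSpace X, m.toUniformSpace.toTopologicalSpace = t :=
    ⟨TopologicalSpace.metrizableSpaceMetric X, rfl⟩
  subst hinst
  have key : IsCompact {x : X | ¬ ∃ P, x ∈ P ∧ Good P} := by
    by_contra hnc
    obtain ⟨q, hqinj, hqB, hqd⟩ := exists_discrete_seq _ (isClosed_bad X) hnc
    obtain ⟨δ, hδ, hδ1, hdisj, hlf⟩ := exists_discrete_balls q hqinj hqd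
    obtain ⟨j0, m, hm, hloc⟩ := exists_metric_local q δ hδ hδ1 hdisj hlf
      (fun i => infinite_ball (hδ i) (hqB i))
    obtain ⟨σ, hσ1, hσ2⟩ := H m hm _ rfl
    refine hqB j0 ⟨@ball X inst.toPseudoMetricSpace (q j0) (δ j0),
      @mem_ball_self X inst.toPseudoMetricSpace (q j0) (δ j0) (hδ j0), ?_⟩
    have hopen : IsOpen[inst.toUniformSpace.toTopologicalSpace]
        (@ball X inst.toPseudoMetricSpace (q j0) (δ j0)) :=
      @isOpen_ball X inst.toPseudoMetricSpace (q j0) (δ j0)
    exact @good_of_hyper X inst.toUniformSpace.toTopologicalSpace _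
      (@ball X inst.toPseudoMetricSpace (q j0) (δ j0)) hopen _ (sing_continuous _ m hm _ rfl)
      (fun x hx U hU hxU => exists_small inst.toUniformSpace.toTopologicalSpace m _ rfl x U (hloc x hx U hU hxU)) σ hσ1 hσ2
  have hg := good_univ_of_isCompact_bad key
  obtain ⟨m, hm, hc⟩ := (completelyMetrizable_of_good hg).complete
  exact ⟨m, hm, hc⟩

end Pool.Agent.Helper63.Wijsman
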