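import Mathlib

/-!
Winning strategies for the nonempty player in the strong Choquet game played inside an
open set `P`, presented as machines with states.
-/

namespace Pool.Agent.Helper63.Wijsman

open Set Topology

/-- A winning strategy for the second player in the strong Choquet game played inside `P`,
presented with a type of states. -/
structure Machine (X : Type) [TopologicalSpace X] (P : Set X) where
  St : Type
  init : St
  V : St → Set X
  next : St → X → Set X → St
  V_init : V init = P
  spec : ∀ s x U, x ∈ U → IsOpen U → U ⊆ V s →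
    IsOpen (V (next s x U)) ∧ x ∈ V (next s x U) ∧ V (next s x U) ⊆ U
  win : ∀ (s : ℕ → St) (x : ℕ → X) (U : ℕ → Set X), s 0 = init →
    (∀ n, x n ∈ U n ∧ IsOpen (U n) ∧ U n ⊆ V (s n) ∧ s (n + 1) = next (s n) (x n) (U n)) →
    ∃ y, ∀ n, y ∈ U n

/-- The set `P` is open and the second player wins the strong Choquet game inside `P`. -/
def Good {X : Type} [TopologicalSpace X] (P : Set X) : Prop :=
  IsOpen P ∧ Nonempty (Machine X P)

/-- The points without a good neighbourhood form a closed set. -/
theorem isClosed_bad (X : Type) [TopologicalSpace X] :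
    IsClosed {x : X | ¬ ∃ P, x ∈ P ∧ Good P} := by
  rw [← isOpen_compl_iff]
  have : {x : X | ¬ ∃ P, x ∈ P ∧ Good P}ᶜ = ⋃ P ∈ {P : Set X | Good P}, P := by
    ext x
    simp only [mem_compl_iff, mem_ofPred_eq, not_not, mem_iUnion, exists_prop]
    constructor
    · rintro ⟨P, h1, h2⟩; exact ⟨P, h2, h1⟩
    · rintro ⟨P, h1, h2⟩; exact ⟨P, h2, h1⟩
  rw [this]
  exact isOpen_biUnion fun P hP => hP.1

/-- If the points without a good neighbourhood form a compact set, then the whole space
is good. -/
theorem good_univ_of_isCompact_bad {X : Type} [TopologicalSpace X] [RegularSpace X]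
    (hB : IsCompact {x : X | ¬ ∃ P, x ∈ P ∧ Good P}) :
    Good (univ : Set X) := by
  classical
  have hBcl := isClosed_bad X
  set B := {x : X | ¬ ∃ P, x ∈ P ∧ Good P} with hBdef
  have hgood : ∀ x : X, x ∉ B → ∃ P, x ∈ P ∧ Good P := by
    intro x hx
    by_contra h
    exact hx h
  choose! P hxP hP using hgood
  let M : ∀ x : {x : X // x ∉ B}, Machine X (P x) := fun x => (hP x.1 x.2).2.some
  have hclos : ∀ (x : X) (U : Set X), x ∈ U → IsOpen U →
      ∃ V, IsOpen V ∧ x ∈ V ∧ closure V ⊆ U := by
    intro x U hx hU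
    obtain ⟨V, hV, hVc⟩ := (hasBasis_opens_closure x).mem_iff.mp (hU.mem_nhds hx)
    exact ⟨V, hV.2, hV.1, hVc⟩
  choose! W hWo hWx hWc using hclos
  let nxt : Set X ⊕ (Σ x : {x : X // x ∉ B}, (M x).St) → X → Set X →
      Set X ⊕ (Σ x : {x : X // x ∉ B}, (M x).St) := fun s x U =>
    match s with
    | Sum.inl _ => if h : x ∈ B then Sum.inl (W x U)
        else Sum.inr ⟨⟨x, h⟩, (M ⟨x, h⟩).next (M ⟨x, h⟩).init x (U ∩ P x)⟩
    | Sum.inr ⟨x0, t⟩ => Sum.inr ⟨x0, (M x0).next t x U⟩
  let VV : Set X ⊕ (Σ x : {x : X // x ∉ B}, (M x).St) → Set X := fun s =>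
    match s with
    | Sum.inl V => V
    | Sum.inr ⟨x0, t⟩ => (M x0).V t
  have hspec : ∀ s x U, x ∈ U → IsOpen U → U ⊆ VV s →
      IsOpen (VV (nxt s x U)) ∧ x ∈ VV (nxt s x U) ∧ VV (nxt s x U) ⊆ U := by
    intro s x U hx hU hUV
    match s with
    | Sum.inl V =>
      by_cases h : x ∈ B
      · simp only [nxt, h, dif_pos, VV]
        exact ⟨hWo x U hx hU, hWx x U hx hU, subset_closure.trans (hWc x U hx hU)⟩
      · simp only [nxt, h, dif_neg, not_false_eq_true, VV]
        have := (M ⟨x, h⟩).spec (M ⟨x, h⟩).init x (U ∩ P x) ⟨hx, hxP x h⟩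
          (hU.inter (hP x h).1) (by rw [(M ⟨x, h⟩).V_init]; exact inter_subset_right)
        exact ⟨this.1, this.2.1, this.2.2.trans inter_subset_left⟩
    | Sum.inr ⟨x0, t⟩ => exact (M x0).spec t x U hx hU hUV
  refine ⟨isOpen_univ, ⟨⟨_, Sum.inl univ, VV, nxt, rfl, hspec, ?_⟩⟩⟩
  intro s x U hs0 hstep
  have hdec1 : ∀ n, U (n + 1) ⊆ U n := by
    intro n
    have h1 := (hstep (n + 1)).2.2.1
    rw [(hstep n).2.2.2] at h1
    exact h1.trans (hspec (s n) (x n) (U n) (hstep n).1 (hstep n).2.1 (hstep n).2.2.1).2.2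
  have hdec : ∀ m n, m ≤ n → U n ⊆ U m := fun m n h => antitone_nat_of_succ_le hdec1 h
  by_cases hall : ∀ n, ∃ V, s n = Sum.inl V
  · -- all reference points are bad
    choose V hV using hall
    have hxB : ∀ n, x n ∈ B := by
      intro n
      by_contra h
      have h1 := (hstep n).2.2.2
      rw [hV n, hV (n + 1)] at h1
      simp only [nxt, h, dif_neg, not_false_eq_true] at h1
      exact Sum.inl_ne_inr h1
    have hVW : ∀ n, V (n + 1) = W (x n) (U n) := by
      intro n
      have h1 := (hstep n).2.2.2
      rw [hV n, hV (n + 1)] at h1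
      simp only [nxt, hxB n, dif_pos] at h1
      exact Sum.inl.inj h1
    have hUV : ∀ n, U n ⊆ V n := by
      intro n
      have := (hstep n).2.2.1
      rw [hV n] at this
      exact this
    have hne := IsCompact.nonempty_iInter_of_sequence_nonempty_isCompact_isClosed
      (fun n => B ∩ closure (V (n + 1)))
      (fun n => by
        apply inter_subset_inter_right
        apply closure_mono
        rw [hVW (n + 1)]
        exact (subset_closure.trans (hWc _ _ (hstep (n + 1)).1 (hstep (n + 1)).2.1)).trans
          (hUV (n + 1)))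
      (fun n => ⟨x (n + 1), hxB _, subset_closure (hUV _ (hstep _).1)⟩)
      (hB.inter_right isClosed_closure)
      (fun n => hBcl.inter isClosed_closure)
    obtain ⟨y, hy⟩ := hne
    refine ⟨y, fun n => ?_⟩
    have := mem_iInter.mp hy n
    have h2 := this.2
    rw [hVW n] at h2
    exact hWc _ _ (hstep n).1 (hstep n).2.1 h2
  · -- at some stage a good neighbourhood is entered
    have hex : ∃ n, ¬ ∃ V, s n = Sum.inl V := by
      by_contra h
      push Not at h
      exact hall h
    obtain ⟨n, hn, hmin⟩ : ∃ n, (¬ ∃ V, s n = Sum.inl V) ∧ ∀ m < n, ∃ V, s m = Sum.inl V := by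
      refine ⟨Nat.find hex, Nat.find_spec hex, fun m hm => ?_⟩
      have := Nat.find_min hex hm
      push Not at this
      exact this
    have hn0 : n ≠ 0 := by
      rintro rfl
      exact hn ⟨univ, hs0⟩
    obtain ⟨k, rfl⟩ := Nat.exists_eq_succ_of_ne_zero hn0
    obtain ⟨V, hV⟩ := hmin k (Nat.lt_succ_self k)
    have hk := (hstep k).2.2.2
    rw [hV] at hk
    have hxk : x k ∉ B := by
      intro h
      simp only [nxt, h, dif_pos] at hk
      exact hn ⟨_, hk⟩
    simp only [nxt, hxk, dif_neg, not_false_eq_true] at hk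
    set x0 : {x : X // x ∉ B} := ⟨x k, hxk⟩ with hx0
    have hstates : ∀ j, ∃ t : (M x0).St, s (k + 1 + j) = Sum.inr ⟨x0, t⟩ := by
      intro j
      induction j with
      | zero => exact ⟨_, hk⟩
      | succ j ih =>
        obtain ⟨t, ht⟩ := ih
        have := (hstep (k + 1 + j)).2.2.2
        rw [ht] at this
        exact ⟨_, this⟩
    choose t ht using hstates
    have ht0 : t 0 = (M x0).next (M x0).init (x k) (U k ∩ P (x k)) := by
      have h1 := ht 0
      rw [show k + 1 + 0 = k + 1 from rfl] at h1
      rw [show s (k + 1) = _ from hk] at h1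
      have h2 := Sum.inr.inj h1
      exact (eq_of_heq (Sigma.mk.inj h2).2).symm
    have htsucc : ∀ j, t (j + 1) = (M x0).next (t j) (x (k + 1 + j)) (U (k + 1 + j)) := by
      intro j
      have h1 := (hstep (k + 1 + j)).2.2.2
      rw [ht j] at h1
      rw [show k + 1 + j + 1 = k + 1 + (j + 1) by ring, ht (j + 1)] at h1
      have h2 := Sum.inr.inj h1
      simpa using h2
    obtain ⟨y, hy⟩ := (M x0).win
      (fun j => match j with | 0 => (M x0).init | j + 1 => t j)
      (fun j => x (k + j))
      (fun j => match j with | 0 => U k ∩ P (x k) | j + 1 => U (k + (j + 1)))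
      rfl (by
        intro j
        match j with
        | 0 =>
          refine ⟨⟨(hstep k).1, hxP _ hxk⟩, (hstep k).2.1.inter (hP _ hxk).1, ?_, ?_⟩
          · show U k ∩ P (x k) ⊆ (M x0).V (M x0).init
            rw [(M x0).V_init]
            exact inter_subset_right
          · exact ht0
        | j + 1 =>
          have e : k + (j + 1) = k + 1 + j := by ring
          refine ⟨(hstep _).1, (hstep _).2.1, ?_, ?_⟩
          · have h1 := (hstep (k + 1 + j)).2.2.1
            rw [ht j] at h1
            show U (k + (j + 1)) ⊆ (M x0).V (t j)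
            rw [e]
            exact h1
          · show t (j + 1) = (M x0).next (t j) (x (k + (j + 1))) (U (k + (j + 1)))
            rw [e]
            exact htsucc j)
    refine ⟨y, fun m => ?_⟩
    rcases le_or_gt m k with hm | hm
    · exact hdec m k hm (hy 0).1
    · obtain ⟨j, rfl⟩ := Nat.exists_eq_add_of_lt hm
      have := hy (j + 1)
      exact this

end Pool.Agent.Helper63.Wijsman
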