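import Mathlib

/-!
Construction of a compatible metric with witness points `w i`: sets far from `w i` are
contained in a small ball around `z i`.
-/

namespace Pool.Agent.Helper63.Wijsman

open Set Topology

section

variable {X : Type} [inst : MetricSpace X] {I : Type} (z w : I → X) (c : I → ℝ) (r : I → ℕ) (R : ℕ → ℝ)

/-- The coordinate functions. -/
noncomputable def gfun (i : I) (y : X) : ℝ :=
  max (4 * c i - dist (z i) y) 0 - 2 * max (1 - dist (w i) y / R (r i)) 0

/-- The supremum part of the new distance. -/
noncomputable def Dfun (x y : X) : ℝ := ⨆ i, |gfun z w c r R i x - gfun z w c r R i y|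

theorem exists_metric_analytic
    (H1 : ∀ i, 0 < c i) (H1' : ∀ i, 4 * c i ≤ 1)
    (H2 : ∀ i j, i ≠ j → R (r j) ≤ dist (w j) (w i))
    (H3 : ∀ i j, 4 * c j ≤ dist (z j) (w i))
    (H4 : ∀ i x, dist (z i) x < c i → R (r i) ≤ dist (w i) x)
    (H5 : ∀ n, 0 < R n)
    (H6 : ∀ x : X, ∃ t ∈ 𝓝 x, {j | ∃ i, r i = j ∧ ∃ y ∈ t, dist (w i) y < R j}.Finite) :
    ∃ m : MetricSpace X, m.toUniformSpace.toTopologicalSpace = inst.toUniformSpace.toTopologicalSpace ∧
      (∀ i y, m.toDist.dist (w i) y ≤ 2 + max (4 * c i - inst.toDist.dist (z i) y) 0) ∧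
      ∀ i x, inst.toDist.dist (z i) x < c i → 2 + 3 * c i < m.toDist.dist (w i) x := by
  classical
  set g := gfun z w c r R with hg
  have hg_def : ∀ i y, g i y = max (4 * c i - dist (z i) y) 0 - 2 * max (1 - dist (w i) y / R (r i)) 0 :=
    fun i y => rfl
  have hh0 : ∀ i y, 0 ≤ max (4 * c i - dist (z i) y) 0 := fun i y => le_max_right _ _
  have hh1 : ∀ i y, max (4 * c i - dist (z i) y) 0 ≤ 1 := fun i y =>
    max_le (by linarith [H1' i, dist_nonneg (x := z i) (y := y)]) zero_le_one
  have hl0 : ∀ i y, 0 ≤ max (1 - dist (w i) y / R (r i)) 0 := fun i y => le_max_right _ _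
  have hl1 : ∀ i y, max (1 - dist (w i) y / R (r i)) 0 ≤ 1 := fun i y =>
    max_le (by linarith [div_nonneg (dist_nonneg (x := w i) (y := y)) (H5 (r i)).le]) zero_le_one
  have hgb : ∀ i y, -2 ≤ g i y ∧ g i y ≤ 1 := by
    intro i y
    rw [hg_def]
    constructor <;> linarith [hh0 i y, hh1 i y, hl0 i y, hl1 i y]
  have hbd : ∀ x y, BddAbove (range fun i => |g i x - g i y|) := by
    intro x y
    refine ⟨3, ?_⟩
    rintro _ ⟨i, rfl⟩
    have h1 := hgb i x
    have h2 := hgb i y
    simp only
    rw [abs_le]
    constructor <;> linarith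
  set D := Dfun z w c r R with hD
  have hD_def : ∀ x y, D x y = ⨆ i, |g i x - g i y| := fun x y => rfl
  have le_D : ∀ i x y, |g i x - g i y| ≤ D x y := fun i x y => le_ciSup (hbd x y) i
  have D_le : ∀ x y (b : ℝ), 0 ≤ b → (∀ i, |g i x - g i y| ≤ b) → D x y ≤ b := fun x y b hb h =>
    Real.iSup_le h hb
  have D_nonneg : ∀ x y, 0 ≤ D x y := fun x y => Real.iSup_nonneg fun i => abs_nonneg _
  have D_self : ∀ x, D x x = 0 := fun x =>
    le_antisymm (D_le x x 0 le_rfl fun i => by simp) (D_nonneg x x)
  have D_comm : ∀ x y, D x y = D y x := by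
    intro x y
    rw [hD_def, hD_def]
    congr 1
    funext i
    exact abs_sub_comm _ _
  have D_tri : ∀ x y v, D x v ≤ D x y + D y v := by
    intro x y v
    refine D_le _ _ _ (add_nonneg (D_nonneg _ _) (D_nonneg _ _)) fun i => ?_
    calc |g i x - g i v| ≤ |g i x - g i y| + |g i y - g i v| := abs_sub_le _ _ _
      _ ≤ D x y + D y v := add_le_add (le_D i x y) (le_D i y v)
  let d : X → X → ℝ := fun x y => max (min (dist x y) 1) (D x y)
  have d_self : ∀ x, d x x = 0 := by
    intro x
    simp only [d, dist_self, D_self]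
    norm_num
  have d_comm : ∀ x y, d x y = d y x := by
    intro x y
    simp only [d, dist_comm x y, D_comm x y]
  have d_tri : ∀ x y v, d x v ≤ d x y + d y v := by
    intro x y v
    have h1 : 0 ≤ dist x y := dist_nonneg
    have h2 : 0 ≤ dist y v := dist_nonneg
    have h3 : dist x v ≤ dist x y + dist y v := dist_triangle _ _ _
    have hmin : min (dist x v) 1 ≤ min (dist x y) 1 + min (dist y v) 1 := by
      rcases le_total (dist x y) 1 with ha | ha <;> rcases le_total (dist y v) 1 with hb | hb
      · rw [min_eq_left ha, min_eq_left hb]; exact (min_le_left _ _).trans h3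
      · rw [min_eq_left ha, min_eq_right hb]; exact (min_le_right _ _).trans (by linarith)
      · rw [min_eq_right ha, min_eq_left hb]; exact (min_le_right _ _).trans (by linarith)
      · rw [min_eq_right ha, min_eq_right hb]; exact (min_le_right _ _).trans (by linarith)
    simp only [d]
    refine max_le ?_ ?_
    · exact hmin.trans (add_le_add (le_max_left _ _) (le_max_left _ _))
    · exact (D_tri x y v).trans (add_le_add (le_max_right _ _) (le_max_right _ _))
  have hcont : ∀ x : X, ∀ ε > 0, ∃ η > 0, ∀ y, dist x y < η → d x y < ε := by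
    intro x ε hε
    obtain ⟨t, ht, hfin⟩ := H6 x
    obtain ⟨η1, hη1, hball⟩ := Metric.mem_nhds_iff.mp ht
    set K := hfin.toFinset with hK
    set L : ℝ := ∑ j ∈ K, (R j)⁻¹ with hL
    have hL0 : 0 ≤ L := Finset.sum_nonneg fun j _ => inv_nonneg.mpr (H5 j).le
    have hkey : ∀ y, dist x y < η1 → D x y ≤ (1 + 2 * L) * dist x y := by
      intro y hy
      have hyt : y ∈ t := hball (by rw [Metric.mem_ball, dist_comm]; exact hy)
      have hxt : x ∈ t := mem_of_mem_nhds ht
      have hd0 : 0 ≤ dist x y := dist_nonneg
      refine D_le _ _ _ (by positivity) fun i => ?_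
      have hh : |max (4 * c i - dist (z i) x) 0 - max (4 * c i - dist (z i) y) 0| ≤ dist x y := by
        refine (abs_max_sub_max_le_abs _ _ _).trans ?_
        have : 4 * c i - dist (z i) x - (4 * c i - dist (z i) y) = dist (z i) y - dist (z i) x := by
          ring
        rw [this, abs_sub_comm]
        rw [dist_comm (z i) x, dist_comm (z i) y]
        exact abs_dist_sub_le _ _ _
      have hl : |max (1 - dist (w i) x / R (r i)) 0 - max (1 - dist (w i) y / R (r i)) 0|
          ≤ L * dist x y := by
        by_cases hi : r i ∈ K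
        · refine (abs_max_sub_max_le_abs _ _ _).trans ?_
          have : 1 - dist (w i) x / R (r i) - (1 - dist (w i) y / R (r i))
              = (R (r i))⁻¹ * (dist (w i) y - dist (w i) x) := by
            field_simp
            ring
          rw [this, abs_mul, abs_of_pos (inv_pos.mpr (H5 _))]
          have h1 : |dist (w i) y - dist (w i) x| ≤ dist x y := by
            rw [abs_sub_comm, dist_comm (w i) x, dist_comm (w i) y]
            exact abs_dist_sub_le _ _ _
          have h2 : (R (r i))⁻¹ ≤ L :=
            Finset.single_le_sum (f := fun j => (R j)⁻¹) (fun j _ => inv_nonneg.mpr (H5 j).le) hi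
          exact mul_le_mul h2 h1 (abs_nonneg _) hL0
        · have hno : ∀ y' ∈ t, max (1 - dist (w i) y' / R (r i)) 0 = 0 := by
            intro y' hy'
            apply max_eq_right
            have : R (r i) ≤ dist (w i) y' := by
              by_contra hlt
              push Not at hlt
              apply hi
              rw [hK, Set.Finite.mem_toFinset]
              exact ⟨i, rfl, y', hy', hlt⟩
            rw [sub_nonpos, le_div_iff₀ (H5 _)]
            linarith
          rw [hno x hxt, hno y hyt]
          simp only [sub_self, abs_zero]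
          positivity
      rw [hg_def, hg_def]
      have hsplit : max (4 * c i - dist (z i) x) 0 - 2 * max (1 - dist (w i) x / R (r i)) 0 -
          (max (4 * c i - dist (z i) y) 0 - 2 * max (1 - dist (w i) y / R (r i)) 0)
          = (max (4 * c i - dist (z i) x) 0 - max (4 * c i - dist (z i) y) 0) -
            2 * (max (1 - dist (w i) x / R (r i)) 0 - max (1 - dist (w i) y / R (r i)) 0) := by
        ring
      rw [hsplit]
      calc _ ≤ |max (4 * c i - dist (z i) x) 0 - max (4 * c i - dist (z i) y) 0| +
            |2 * (max (1 - dist (w i) x / R (r i)) 0 - max (1 - dist (w i) y / R (r i)) 0)| :=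
            abs_sub _ _
        _ ≤ dist x y + 2 * (L * dist x y) := by
            rw [abs_mul, abs_two]
            exact add_le_add hh (mul_le_mul_of_nonneg_left hl zero_le_two)
        _ = (1 + 2 * L) * dist x y := by ring
    refine ⟨min η1 (ε / (2 * (1 + 2 * L))), lt_min hη1 (by positivity), fun y hy => ?_⟩
    have hy1 : dist x y < η1 := lt_of_lt_of_le hy (min_le_left _ _)
    have hy2 : dist x y < ε / (2 * (1 + 2 * L)) := lt_of_lt_of_le hy (min_le_right _ _)
    have hpos : 0 < 1 + 2 * L := by linarith
    have h3 : (1 + 2 * L) * dist x y < ε := by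
      rw [lt_div_iff₀ (by positivity)] at hy2
      nlinarith [dist_nonneg (x := x) (y := y)]
    have h4 : dist x y ≤ (1 + 2 * L) * dist x y := by
      nlinarith [dist_nonneg (x := x) (y := y)]
    exact max_lt (lt_of_le_of_lt (min_le_left _ _) (lt_of_le_of_lt h4 h3))
      (lt_of_le_of_lt (hkey y hy1) h3)
  have H : ∀ s : Set X, IsOpen s ↔ ∀ x ∈ s, ∃ ε > 0, ∀ y, d x y < ε → y ∈ s := by
    intro s
    constructor
    · intro hs x hx
      obtain ⟨ε, hε, hball⟩ := Metric.isOpen_iff.mp hs x hx
      refine ⟨min ε 1, lt_min hε one_pos, fun y hy => hball ?_⟩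
      have h1 : min (dist x y) 1 < min ε 1 := lt_of_le_of_lt (le_max_left _ _) hy
      rw [Metric.mem_ball, dist_comm]
      by_contra hcon
      push Not at hcon
      exact absurd (min_le_min_right 1 hcon) (not_le.mpr h1)
    · intro h
      rw [Metric.isOpen_iff]
      intro x hx
      obtain ⟨ε, hε, hb⟩ := h x hx
      obtain ⟨η, hη, hh⟩ := hcont x ε hε
      refine ⟨η, hη, fun y hy => hb y (hh y ?_)⟩
      rw [dist_comm]; exact hy
  have hsep : ∀ x y, d x y = 0 → x = y := by
    intro x y hxy
    have h1 : min (dist x y) 1 ≤ 0 := hxy ▸ le_max_left _ _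
    by_contra hne
    have h2 : 0 < min (dist x y) 1 := lt_min (dist_pos.mpr hne) one_pos
    linarith
  refine ⟨MetricSpace.ofDistTopology d d_self d_comm d_tri H hsep, rfl, ?_, ?_⟩
  · intro i y
    show max (min (dist (w i) y) 1) (D (w i) y) ≤ _
    have hhi := hh0 i y
    refine max_le ((min_le_right _ _).trans (by linarith)) (D_le _ _ _ (by linarith) fun j => ?_)
    have hwz : max (4 * c j - dist (z j) (w i)) 0 = 0 := max_eq_right (by linarith [H3 i j])
    by_cases hij : i = j
    · subst hij
      have hww : max (1 - dist (w i) (w i) / R (r i)) 0 = 1 := by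
        rw [dist_self, zero_div, sub_zero]; exact max_eq_left zero_le_one
      rw [hg_def, hg_def, hwz, hww, abs_le]
      constructor <;> linarith [hh0 i y, hh1 i y, hl0 i y, hl1 i y]
    · have hww : max (1 - dist (w j) (w i) / R (r j)) 0 = 0 := by
        apply max_eq_right
        rw [sub_nonpos, le_div_iff₀ (H5 _)]
        linarith [H2 i j hij]
      rw [hg_def, hg_def, hwz, hww, abs_le]
      constructor <;> linarith [hh0 j y, hh1 j y, hl0 j y, hl1 j y]
  · intro i x hx
    show 2 + 3 * c i < max (min (dist (w i) x) 1) (D (w i) x)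
    refine lt_of_lt_of_le ?_ ((le_D i (w i) x).trans (le_max_right _ _))
    have hwz : max (4 * c i - dist (z i) (w i)) 0 = 0 := max_eq_right (by linarith [H3 i i])
    have hww : max (1 - dist (w i) (w i) / R (r i)) 0 = 1 := by
      rw [dist_self, zero_div, sub_zero]; exact max_eq_left zero_le_one
    have hxw : max (1 - dist (w i) x / R (r i)) 0 = 0 := by
      apply max_eq_right
      rw [sub_nonpos, le_div_iff₀ (H5 _)]
      linarith [H4 i x hx]
    have hxz : 3 * c i < max (4 * c i - dist (z i) x) 0 := lt_max_of_lt_left (by linarith)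
    rw [hg_def, hg_def, hwz, hww, hxw]
    rw [show (0 : ℝ) - 2 * 1 - (max (4 * c i - dist (z i) x) 0 - 2 * 0)
      = -(2 + max (4 * c i - dist (z i) x) 0) by ring, abs_neg]
    exact lt_of_lt_of_le (by linarith) (le_abs_self _)

end

end Pool.Agent.Helper63.Wijsman
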